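import Pool.Agent.W922.PH.Sel2

set_option autoImplicit false

open Finset

namespace Pool.Agent.W922.PH

open Pool.Agent.W984.PH

lemma sum_dg_sq {V : Type} [DecidableEq V] [Fintype V] (x : V → ℝ) (𝒬 : Finset (Finset V))
    (r : ℕ) (C N : ℝ) (hN : 0 < N) (hC : 1 ≤ C) (hQ : ∀ e ∈ 𝒬, e.card = r)
    (hx : ∀ v, 0 ≤ x v) (hxC : ∀ v, x v ≤ C / N) (hdg : ∀ v, dg x 𝒬 v ≤ C / N * x v) :
    ∑ v, (dg x 𝒬 v) ^ 2 ≤ (C / N) ^ 2 * ((r : ℝ) * ms x 𝒬 univ) := by
  rw [← sum_dg x 𝒬 r hQ, Finset.mul_sum]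
  apply Finset.sum_le_sum
  intro v _
  rw [sq]
  apply mul_le_mul_of_nonneg_right _ (dg_nonneg x 𝒬 hx v)
  calc dg x 𝒬 v ≤ C / N * x v := hdg v
    _ ≤ C / N * (C / N) := mul_le_mul_of_nonneg_left (hxC v) (by positivity)
    _ = (C / N) ^ 2 := by ring

theorem t_SEL (h1 : S_PR) (h2 : S_SM) (h3 : S_COV) (h4 : S_NUME) : S_SEL := by
  intro r C R hr hC hR
  obtain ⟨n1, hn1, hnum⟩ := h4 r C hr hC
  have hr0 : (0 : ℝ) < (r : ℝ) := by
    have : 0 < r := by omega
    exact_mod_cast this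
  have hr3 : (3 : ℝ) ≤ (r : ℝ) := by exact_mod_cast hr
  have hη : 0 < eta r := by unfold eta; positivity
  have hη1 : eta r ≤ 1 := by
    unfold eta
    rw [div_le_one (by positivity)]
    linarith
  have hd : 0 < del r := by unfold del; positivity
  set d := del r with hddef
  have hC0 : 0 < C := by linarith
  obtain ⟨n2, hn2⟩ := exists_nat_ge (5 * (r : ℝ) * (8 * C ^ 4) / d ^ 2
    + 5 * C ^ 2 * (r : ℝ) * R / d ^ 3 + 1)
  refine ⟨max n1 n2, le_max_of_le_left hn1, ?_⟩
  intro s t hs hst σ α β N hN hσ hα hβ V _ _ x 𝒬 hQ hx hx1 hxC hdg _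
  have hs1 : (n1 : ℝ) ≤ s := le_trans (by exact_mod_cast le_max_left n1 n2) hs
  have hs2 : (n2 : ℝ) ≤ s := le_trans (by exact_mod_cast le_max_right n1 n2) hs
  have hK1 : 0 ≤ 5 * (r : ℝ) * (8 * C ^ 4) / d ^ 2 := by positivity
  have hK2 : 0 ≤ 5 * C ^ 2 * (r : ℝ) * R / d ^ 3 := by positivity
  have hs3 : 1 ≤ s := by linarith
  have hs0 : 0 < s := by linarith
  have ht0 : 0 < t := by linarith
  have hN0 : 0 < N := by rw [hN]; linarith
  have hσ0 : 0 < σ := by rw [hσ]; positivity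
  have hσ2 : σ ≤ 1 / 2 := by
    rw [hσ, div_le_iff₀ hN0, hN]; linarith
  have hsσ : s = σ * N := by rw [hσ]; field_simp
  obtain ⟨g1, g2, g3, g4, g5⟩ := hnum s t hs1 hst σ α β (by rw [hσ, hN]) hα hβ
  have hα0 : 0 ≤ α := by
    rw [hα]; exact mul_nonneg (by linarith) hσ0.le
  have hησ : 0 ≤ eta r * σ := mul_nonneg hη.le hσ0.le
  have hασ : α ≤ σ := by
    rw [hα]; linarith
  have hβσ : σ ≤ β := by
    rw [hβ]; linarith
  have hαβ : α ≤ β := le_trans hασ hβσ
  have hsum : α + β = 2 * σ := by rw [hα, hβ]; ring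
  have hdσ : 0 < d * σ := by positivity
  have hβ1 : β ≤ 1 := by linarith
  obtain ⟨p1, p2, p3⟩ := h1 V α β
  set q := ms x 𝒬 univ with hqdef
  have hq0 : 0 ≤ q := ms_nonneg x 𝒬 univ hx
  have hP1 : 0 < (α - d * σ) ^ (r - 2) := pow_pos g1 _
  have hP2 : 0 < (1 - β - d * σ) ^ (r - 2) := pow_pos (by linarith) _
  have hP2' : (1 - β - d * σ) ^ (r - 2) ≤ 1 := pow_le_one₀ (by linarith) (by linarith)
  obtain ⟨eP, ePw⟩ := Ex_Psi_le h2 x α β σ s C N d hα0 hαβ hβ1 hsum hσ0 hN0 hs3 hsσ hd hC hx hx1 hxC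
  -- smallness of the error terms
  have hsm1 : (r : ℝ) * (8 * C ^ 4 / (d ^ 2 * s)) < 1 / 5 := by
    have : (r : ℝ) * (8 * C ^ 4 / (d ^ 2 * s)) = (5 * (r : ℝ) * (8 * C ^ 4) / d ^ 2) / (5 * s) := by
      field_simp
    rw [this, div_lt_iff₀ (by positivity)]
    linarith
  have hsm1' : 8 * C ^ 4 / (d ^ 2 * s) < 1 / 5 := by
    have h0 : 0 ≤ 8 * C ^ 4 / (d ^ 2 * s) := by positivity
    exact lt_of_le_of_lt (le_mul_of_one_le_left h0 (by linarith)) hsm1
  have hsm2 : C ^ 2 * (r : ℝ) * R / (d ^ 3 * s) < 1 / 5 := by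
    have : C ^ 2 * (r : ℝ) * R / (d ^ 3 * s)
        = (5 * C ^ 2 * (r : ℝ) * R / d ^ 3) / (5 * s) := by
      field_simp
    rw [this, div_lt_iff₀ (by positivity)]
    linarith
  -- the two weights
  set W : (V → Fin 3) → ℝ := fun ω => (1 + C / s) * ms x 𝒬 (SB ω) / (α - d * σ) ^ (r - 2) with hW
  set U : (V → Fin 3) → ℝ := fun ω => (1 + C / t) * ms x 𝒬 (univ \ SA ω)
    / (1 - β - d * σ) ^ (r - 2) with hU
  have hW0 : ∀ ω, 0 ≤ W ω := by
    intro ω
    have := ms_nonneg x 𝒬 (SB ω) hx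
    simp only [hW]
    positivity
  have hU0 : ∀ ω, 0 ≤ U ω := by
    intro ω
    have := ms_nonneg x 𝒬 (univ \ SA ω) hx
    simp only [hU]
    positivity
  have eW : Ex α β W ≤ 6 / 5 * σ ^ 2 * q := by
    have hh : W = fun ω => ((1 + C / s) / (α - d * σ) ^ (r - 2)) * ms x 𝒬 (SB ω) := by
      funext ω; simp only [hW]; ring
    rw [hh, Ex_cmul, Ex_msB p2 x 𝒬 r hQ]
    calc (1 + C / s) / (α - d * σ) ^ (r - 2) * (β ^ r * ms x 𝒬 univ)
        = ((1 + C / s) * β ^ r / (α - d * σ) ^ (r - 2)) * q := by rw [hqdef]; ring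
      _ ≤ 6 / 5 * σ ^ 2 * q := mul_le_mul_of_nonneg_right g3 hq0
  have eU : Ex α β U ≤ (1 - σ) * (1 - 4 / 5 * σ) * q := by
    have hh : U = fun ω => ((1 + C / t) / (1 - β - d * σ) ^ (r - 2)) * ms x 𝒬 (univ \ SA ω) := by
      funext ω; simp only [hU]; ring
    rw [hh, Ex_cmul, Ex_msA p3 x 𝒬 r hQ]
    calc (1 + C / t) / (1 - β - d * σ) ^ (r - 2) * ((1 - α) ^ r * ms x 𝒬 univ)
        = ((1 + C / t) * (1 - α) ^ r / (1 - β - d * σ) ^ (r - 2)) * q := by rw [hqdef]; ring
      _ ≤ (1 - σ) * (1 - 4 / 5 * σ) * q := mul_le_mul_of_nonneg_right g4 hq0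
  -- what has to be found
  have finish : ∀ ω : V → Fin 3, Psi x α β N (d * σ) ω < 1 → W ω + U ω ≤ q →
      R * U ω ≤ R * q * (1 - α) + d * σ / N → R * W ω ≤ R * q * β + 2 * (d * σ / N) →
      ∃ A B : Finset V, A ⊆ B ∧
        |∑ v ∈ A, x v - α| ≤ d * σ ∧ |∑ v ∈ B, x v - β| ≤ d * σ ∧
        |∑ v ∈ A, (x v) ^ 2 - α * ∑ v, (x v) ^ 2| ≤ d * σ / N ∧
        |∑ v ∈ B, (x v) ^ 2 - β * ∑ v, (x v) ^ 2| ≤ d * σ / N ∧
        (1 + C / s) * ms x 𝒬 B / (α - d * σ) ^ (r - 2)
          + (1 + C / t) * ms x 𝒬 (univ \ A) / (1 - β - d * σ) ^ (r - 2) ≤ q ∧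
        R * ((1 + C / t) * ms x 𝒬 (univ \ A) / (1 - β - d * σ) ^ (r - 2))
          ≤ R * q * (1 - α) + d * σ / N ∧
        R * ((1 + C / s) * ms x 𝒬 B / (α - d * σ) ^ (r - 2))
          ≤ R * q * β + 2 * (d * σ / N) := by
    intro ω hP hWU hRU hRW
    obtain ⟨c1, c2, c3, c4⟩ := Psi_lt_one x α β N (d * σ) hN0 hdσ ω hP
    rw [hx1, mul_one] at c1 c2
    exact ⟨SA ω, SB ω, SA_sub_SB ω, c1, c2, c3, c4, hWU, hRU, hRW⟩
  rcases hq0.eq_or_lt with hq | hq
  · -- no weight at all
    have hz : ∀ U' : Finset V, ms x 𝒬 U' = 0 := by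
      intro U'
      apply le_antisymm _ (ms_nonneg x 𝒬 U' hx)
      rw [hq]
      exact ms_mono x 𝒬 U' univ (Finset.subset_univ _) hx
    obtain ⟨ω, hω⟩ := exists_lt_one_of_Ex hα0 hαβ hβ1 (Psi x α β N (d * σ)) p1 (by linarith)
    have hWz : W ω = 0 := by simp only [hW, hz]; simp
    have hUz : U ω = 0 := by simp only [hU, hz]; simp
    apply finish ω hω
    · rw [hWz, hUz, ← hq]; norm_num
    · rw [hUz, ← hq]
      have : 0 ≤ d * σ / N := by positivity
      simp only [mul_zero, zero_mul, zero_add]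
      exact this
    · rw [hWz, ← hq]
      have : 0 ≤ d * σ / N := by positivity
      simp only [mul_zero, zero_mul, zero_add]
      linarith
  · rcases le_or_gt (N * R * q) d with hcase | hcase
    · -- small weight
      set Z : (V → Fin 3) → ℝ := fun ω => ∑ v ∈ SA ω, dg x 𝒬 v with hZ
      have hZ0 : ∀ ω, 0 ≤ Z ω := fun ω => Finset.sum_nonneg (fun v _ => dg_nonneg x 𝒬 hx v)
      have eZ : Ex α β (fun ω => Z ω * Psi x α β N (d * σ) ω)
          ≤ (r : ℝ) * q * (α * (8 * C ^ 4 / (d ^ 2 * s))) := by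
        have hh : (fun ω => Z ω * Psi x α β N (d * σ) ω)
            = fun ω => ∑ v, dg x 𝒬 v * ((if v ∈ SA ω then 1 else 0) * Psi x α β N (d * σ) ω) := by
          funext ω
          simp only [hZ]
          rw [Finset.sum_mul, ← Finset.sum_subset (Finset.subset_univ (SA ω))]
          · apply Finset.sum_congr rfl
            intro v hv
            rw [if_pos hv, one_mul]
          · intro v _ hv
            rw [if_neg hv, zero_mul, mul_zero]
        rw [hh, Ex_sum, hqdef, ← sum_dg x 𝒬 r hQ, Finset.sum_mul]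
        apply Finset.sum_le_sum
        intro v _
        rw [Ex_cmul]
        exact mul_le_mul_of_nonneg_left (ePw v) (dg_nonneg x 𝒬 hx v)
      have hpos : 0 < Ex α β (fun ω => (q + (-(1 / (2 * σ))) * W ω) + ((-1) * U ω
          + (-1) * (Z ω * Psi x α β N (d * σ) ω))) := by
        rw [Ex_add, Ex_add, Ex_add, Ex_cmul, Ex_cmul, Ex_cmul]
        have hcst : Ex (V := V) α β (fun _ => q) = q := by
          have : (fun _ : V → Fin 3 => q) = fun ω => q * (fun _ => (1 : ℝ)) ω := by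
            funext ω; simp
          rw [this, Ex_cmul, p1, mul_one]
        rw [hcst]
        have hw : 1 / (2 * σ) * Ex α β W ≤ 3 / 5 * σ * q := by
          calc 1 / (2 * σ) * Ex α β W ≤ 1 / (2 * σ) * (6 / 5 * σ ^ 2 * q) :=
                mul_le_mul_of_nonneg_left eW (by positivity)
            _ = 3 / 5 * σ * q := by field_simp; ring
        have hz2 : (r : ℝ) * q * (α * (8 * C ^ 4 / (d ^ 2 * s))) ≤ σ * q * (1 / 5) := by
          calc (r : ℝ) * q * (α * (8 * C ^ 4 / (d ^ 2 * s)))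
              = (α * q) * ((r : ℝ) * (8 * C ^ 4 / (d ^ 2 * s))) := by ring
            _ ≤ (α * q) * (1 / 5) := mul_le_mul_of_nonneg_left hsm1.le (by positivity)
            _ ≤ (σ * q) * (1 / 5) := by
                apply mul_le_mul_of_nonneg_right _ (by norm_num)
                exact mul_le_mul_of_nonneg_right hασ hq.le
        have hfin : 0 < q - 3 / 5 * σ * q - (1 - σ) * (1 - 4 / 5 * σ) * q - σ * q * (1 / 5) := by
          have : q - 3 / 5 * σ * q - (1 - σ) * (1 - 4 / 5 * σ) * q - σ * q * (1 / 5)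
              = q * σ * (1 - 4 / 5 * σ) := by ring
          rw [this]
          have : 0 < 1 - 4 / 5 * σ := by linarith
          positivity
        linarith
      obtain ⟨ω, hω⟩ := exists_pos_of_Ex hα0 hαβ hβ1 _ hpos
      have hPs0 := Psi_nonneg x α β N (d * σ) ω
      have hZP : 0 ≤ Z ω * Psi x α β N (d * σ) ω := mul_nonneg (hZ0 ω) hPs0
      have hWσ : W ω ≤ 1 / (2 * σ) * W ω := by
        apply le_mul_of_one_le_left (hW0 ω)
        rw [le_div_iff₀ (by positivity)]
        linarith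
      have hUA : ms x 𝒬 (univ \ SA ω) ≤ U ω := by
        simp only [hU]
        rw [le_div_iff₀ hP2]
        have hm := ms_nonneg x 𝒬 (univ \ SA ω) hx
        calc ms x 𝒬 (univ \ SA ω) * (1 - β - d * σ) ^ (r - 2)
            ≤ ms x 𝒬 (univ \ SA ω) * 1 := mul_le_mul_of_nonneg_left hP2' hm
          _ ≤ (1 + C / t) * ms x 𝒬 (univ \ SA ω) := by
              have : 0 ≤ C / t * ms x 𝒬 (univ \ SA ω) := by positivity
              linarith
      have hZb : q - ms x 𝒬 (univ \ SA ω) ≤ Z ω := ms_sub_le x 𝒬 hx (SA ω)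
      have hW0' := hW0 ω
      have hU0' := hU0 ω
      have hPs1 : Psi x α β N (d * σ) ω < 1 := by
        by_contra hcon
        push Not at hcon
        have : Z ω ≤ Z ω * Psi x α β N (d * σ) ω := le_mul_of_one_le_right (hZ0 ω) hcon
        linarith
      have hWq : 1 / (2 * σ) * W ω + U ω ≤ q := by linarith
      have hW2 : W ω ≤ 2 * σ * q := by
        have h3 : 1 / (2 * σ) * W ω ≤ q := by linarith
        have h4 := mul_le_mul_of_nonneg_left h3 (by positivity : (0:ℝ) ≤ 2 * σ)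
        have h5 : 2 * σ * (1 / (2 * σ) * W ω) = W ω := by field_simp
        rwa [h5] at h4
      have hRq : R * q ≤ d / N := by
        rw [le_div_iff₀ hN0]; linarith
      apply finish ω hPs1
      · linarith
      · have h3 : R * U ω ≤ R * q := mul_le_mul_of_nonneg_left (by linarith) hR.le
        have h4 : R * q * α ≤ d / N * σ := by
          apply mul_le_mul hRq hασ hα0
          positivity
        have h5 : d / N * σ = d * σ / N := by ring
        have h6 : R * q * (1 - α) = R * q - R * q * α := by ring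
        rw [h6]
        linarith
      · have h3 : R * W ω ≤ R * (2 * σ * q) := mul_le_mul_of_nonneg_left hW2 hR.le
        have h4 : R * (2 * σ * q) = 2 * (σ * (R * q)) := by ring
        have h5 : σ * (R * q) ≤ σ * (d / N) := mul_le_mul_of_nonneg_left hRq hσ0.le
        have h6 : σ * (d / N) = d * σ / N := by ring
        have h7 : 0 ≤ R * q * β := mul_nonneg (by positivity) (by linarith)
        linarith
    · -- large weight
      have hsecond : Ex α β (fun ω => ((d * σ * q) ^ 2)⁻¹ *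
          (ms x 𝒬 (univ \ SA ω) - (1 - α) ^ r * q) ^ 2) < 1 / 5 := by
        rw [Ex_cmul]
        have hc := h3 V α β hα0 hαβ hβ1 𝒬 r x hQ hx
        have hs := sum_dg_sq x 𝒬 r C N hN0 hC hQ hx hxC hdg
        rw [inv_mul_lt_iff₀ (by positivity)]
        have hα' : α * ∑ v, (dg x 𝒬 v) ^ 2 ≤ σ * ((C / N) ^ 2 * ((r : ℝ) * q)) := by
          apply mul_le_mul hασ hs (Finset.sum_nonneg (fun v _ => sq_nonneg _)) hσ0.le
        have h5 : σ * ((C / N) ^ 2 * ((r : ℝ) * q)) < (d * σ * q) ^ 2 * (1 / 5) := by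
          -- from N R q > d and the bound for s
          have h6 : C ^ 2 * (r : ℝ) * R < 1 / 5 * (d ^ 3 * s) := by
            rwa [div_lt_iff₀ (by positivity)] at hsm2
          have h7 : σ * ((C / N) ^ 2 * ((r : ℝ) * q)) = (σ * q / N ^ 2) * (C ^ 2 * (r : ℝ)) := by
            field_simp
          have h8 : (d * σ * q) ^ 2 * (1 / 5)
              = (σ * q / N ^ 2) * (1 / 5 * (d ^ 2 * (σ * N) * (N * q))) := by
            field_simp
          rw [h7, h8]
          apply mul_lt_mul_of_pos_left _ (by positivity)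
          rw [← hsσ]
          -- C^2 r < 1/5 d^2 s N q
          have h9 : C ^ 2 * (r : ℝ) * R < (1 / 5 * (d ^ 2 * s * (N * q))) * R := by
            calc C ^ 2 * (r : ℝ) * R < 1 / 5 * (d ^ 3 * s) := h6
              _ = (1 / 5 * (d ^ 2 * s)) * d := by ring
              _ < (1 / 5 * (d ^ 2 * s)) * (N * R * q) :=
                  mul_lt_mul_of_pos_left hcase (by positivity)
              _ = (1 / 5 * (d ^ 2 * s * (N * q))) * R := by ring
          exact lt_of_mul_lt_mul_right h9 hR.le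
        linarith
      have hthird : Ex α β (fun ω => (σ * q)⁻¹ * W ω) ≤ 3 / 5 := by
        rw [Ex_cmul, inv_mul_le_iff₀ (by positivity)]
        calc Ex α β W ≤ 6 / 5 * σ ^ 2 * q := eW
          _ = σ * q * (6 / 5 * σ) := by ring
          _ ≤ σ * q * (3 / 5) := by
              apply mul_le_mul_of_nonneg_left _ (by positivity)
              linarith
      have hlt : Ex α β (fun ω => Psi x α β N (d * σ) ω + (((d * σ * q) ^ 2)⁻¹ *
          (ms x 𝒬 (univ \ SA ω) - (1 - α) ^ r * q) ^ 2 + (σ * q)⁻¹ * W ω)) < 1 := by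
        rw [Ex_add, Ex_add]
        linarith
      obtain ⟨ω, hω⟩ := exists_lt_one_of_Ex hα0 hαβ hβ1 _ p1 hlt
      have t1 := Psi_nonneg x α β N (d * σ) ω
      have t2 : 0 ≤ ((d * σ * q) ^ 2)⁻¹ * (ms x 𝒬 (univ \ SA ω) - (1 - α) ^ r * q) ^ 2 := by
        positivity
      have t3 : 0 ≤ (σ * q)⁻¹ * W ω := mul_nonneg (by positivity) (hW0 ω)
      have hPs1 : Psi x α β N (d * σ) ω < 1 := by linarith
      have hW1 : W ω ≤ σ * q := by
        have h5 : (σ * q)⁻¹ * W ω < 1 := by linarith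
        rw [inv_mul_lt_iff₀ (by positivity)] at h5
        linarith
      have hA1 : ms x 𝒬 (univ \ SA ω) ≤ (1 - α) ^ r * q + d * σ * q := by
        have h5 : ((d * σ * q) ^ 2)⁻¹ * (ms x 𝒬 (univ \ SA ω) - (1 - α) ^ r * q) ^ 2 < 1 := by
          linarith
        rw [inv_mul_lt_iff₀ (by positivity), mul_one] at h5
        have h6 := abs_le_of_sq_le_sq h5.le (by positivity)
        linarith [(abs_le.mp h6).2]
      have hU1 : U ω ≤ (1 - σ) * q := by
        have h5 : U ω ≤ ((1 + C / t) * (1 - α) ^ r / (1 - β - d * σ) ^ (r - 2)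
            + (1 + C / t) * (d * σ) / (1 - β - d * σ) ^ (r - 2)) * q := by
          simp only [hU]
          rw [← add_div, div_mul_eq_mul_div]
          apply div_le_div_of_nonneg_right _ hP2.le
          have h6 : (0 : ℝ) ≤ 1 + C / t := by positivity
          calc (1 + C / t) * ms x 𝒬 (univ \ SA ω)
              ≤ (1 + C / t) * ((1 - α) ^ r * q + d * σ * q) := mul_le_mul_of_nonneg_left hA1 h6
            _ = _ := by ring
        have h6 : ((1 + C / t) * (1 - α) ^ r / (1 - β - d * σ) ^ (r - 2)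
            + (1 + C / t) * (d * σ) / (1 - β - d * σ) ^ (r - 2)) * q
            ≤ ((1 - σ) * (1 - 4 / 5 * σ) + σ / 5) * q :=
          mul_le_mul_of_nonneg_right (by linarith) hq.le
        have h7 : ((1 - σ) * (1 - 4 / 5 * σ) + σ / 5) * q ≤ (1 - σ) * q := by
          apply mul_le_mul_of_nonneg_right _ hq.le
          have h8 : σ * σ ≤ σ * (1 / 2) := mul_le_mul_of_nonneg_left hσ2 hσ0.le
          linarith
        linarith
      apply finish ω hPs1
      · have : σ * q + (1 - σ) * q = q := by ring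
        linarith
      · have h5 : R * U ω ≤ R * ((1 - σ) * q) := mul_le_mul_of_nonneg_left hU1 hR.le
        have h6 : R * ((1 - σ) * q) ≤ R * q * (1 - α) := by
          have : R * ((1 - σ) * q) = R * q * (1 - σ) := by ring
          rw [this]
          exact mul_le_mul_of_nonneg_left (by linarith) (by positivity)
        have : 0 ≤ d * σ / N := by positivity
        linarith
      · have h5 : R * W ω ≤ R * (σ * q) := mul_le_mul_of_nonneg_left hW1 hR.le
        have h6 : R * (σ * q) ≤ R * q * β := by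
          have : R * (σ * q) = R * q * σ := by ring
          rw [this]
          exact mul_le_mul_of_nonneg_left hβσ (by positivity)
        have : 0 ≤ d * σ / N := by positivity
        linarith

end Pool.Agent.W922.PH
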