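import Pool.Agent.W984.PH.Stm

set_option autoImplicit false

open Finset

namespace Pool.Agent.W922.PH

open Pool.Agent.W984.PH

section ExLemmas
variable {V : Type} [DecidableEq V] [Fintype V] {α β : ℝ}

lemma Ex_add (f g : (V → Fin 3) → ℝ) :
    Ex α β (fun ω => f ω + g ω) = Ex α β f + Ex α β g := by
  unfold Ex
  rw [← Finset.sum_add_distrib]
  exact Finset.sum_congr rfl (fun ω _ => by ring)

lemma Ex_cmul (c : ℝ) (f : (V → Fin 3) → ℝ) : Ex α β (fun ω => c * f ω) = c * Ex α β f := by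
  unfold Ex
  rw [Finset.mul_sum]
  exact Finset.sum_congr rfl (fun ω _ => by ring)

lemma Ex_sum {ι : Type} (S : Finset ι) (f : ι → (V → Fin 3) → ℝ) :
    Ex α β (fun ω => ∑ i ∈ S, f i ω) = ∑ i ∈ S, Ex α β (f i) := by
  unfold Ex
  rw [Finset.sum_comm]
  exact Finset.sum_congr rfl (fun ω _ => by rw [Finset.mul_sum])

lemma prod_wt_nonneg (h0 : 0 ≤ α) (h1 : α ≤ β) (h2 : β ≤ 1) (ω : V → Fin 3) :
    0 ≤ ∏ v, wt α β (ω v) := by
  apply Finset.prod_nonneg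
  intro v _
  have : ∀ i : Fin 3, 0 ≤ wt α β i := by
    intro i
    fin_cases i <;> simp [wt] <;> linarith
  exact this _

lemma Ex_mono (h0 : 0 ≤ α) (h1 : α ≤ β) (h2 : β ≤ 1) (f g : (V → Fin 3) → ℝ)
    (h : ∀ ω, f ω ≤ g ω) : Ex α β f ≤ Ex α β g := by
  unfold Ex
  apply Finset.sum_le_sum
  intro ω _
  exact mul_le_mul_of_nonneg_left (h ω) (prod_wt_nonneg h0 h1 h2 ω)

lemma exists_pos_of_Ex (h0 : 0 ≤ α) (h1 : α ≤ β) (h2 : β ≤ 1) (f : (V → Fin 3) → ℝ)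
    (h : 0 < Ex α β f) : ∃ ω, 0 < f ω := by
  by_contra hc
  push Not at hc
  have := Ex_mono h0 h1 h2 f (fun _ => 0) hc
  have h3 : Ex (V := V) α β (fun _ => 0) = 0 := by simp [Ex]
  linarith

lemma exists_lt_one_of_Ex (h0 : 0 ≤ α) (h1 : α ≤ β) (h2 : β ≤ 1) (f : (V → Fin 3) → ℝ)
    (hone : Ex (V := V) α β (fun _ => 1) = 1) (h : Ex α β f < 1) : ∃ ω, f ω < 1 := by
  by_contra hc
  push Not at hc
  have := Ex_mono h0 h1 h2 (fun _ => 1) f hc
  linarith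

lemma SA_sub_SB (ω : V → Fin 3) : SA ω ⊆ SB ω := by
  intro v hv
  simp only [SA, SB, Finset.mem_filter, Finset.mem_univ, true_and] at hv ⊢
  rw [hv]
  decide

/-- expected weight of the sets inside `SB` -/
lemma Ex_msB (hPR : ∀ e : Finset V, Ex α β (fun ω => if e ⊆ SB ω then 1 else 0) = β ^ e.card)
    (x : V → ℝ) (𝒬 : Finset (Finset V)) (r : ℕ) (hQ : ∀ e ∈ 𝒬, e.card = r) :
    Ex α β (fun ω => ms x 𝒬 (SB ω)) = β ^ r * ms x 𝒬 univ := by
  have h1 : (fun ω : V → Fin 3 => ms x 𝒬 (SB ω))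
      = fun ω => ∑ e ∈ 𝒬, (∏ v ∈ e, x v) * (if e ⊆ SB ω then 1 else 0) := by
    funext ω
    unfold ms
    rw [Finset.sum_filter]
    apply Finset.sum_congr rfl
    intro e _
    split_ifs <;> simp
  rw [h1, Ex_sum]
  unfold ms
  simp only [Finset.subset_univ, Finset.filter_true]
  rw [Finset.mul_sum]
  apply Finset.sum_congr rfl
  intro e he
  rw [Ex_cmul, hPR e, hQ e he]
  ring

/-- expected weight of the sets avoiding `SA` -/
lemma Ex_msA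
    (hPR : ∀ e : Finset V, Ex α β (fun ω => if Disjoint e (SA ω) then 1 else 0)
      = (1 - α) ^ e.card)
    (x : V → ℝ) (𝒬 : Finset (Finset V)) (r : ℕ) (hQ : ∀ e ∈ 𝒬, e.card = r) :
    Ex α β (fun ω => ms x 𝒬 (univ \ SA ω)) = (1 - α) ^ r * ms x 𝒬 univ := by
  have h1 : (fun ω : V → Fin 3 => ms x 𝒬 (univ \ SA ω))
      = fun ω => ∑ e ∈ 𝒬, (∏ v ∈ e, x v) * (if Disjoint e (SA ω) then 1 else 0) := by
    funext ω
    unfold ms
    rw [Finset.sum_filter]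
    apply Finset.sum_congr rfl
    intro e _
    have h2 : e ⊆ univ \ SA ω ↔ Disjoint e (SA ω) := by
      rw [Finset.disjoint_left]
      constructor
      · intro h v hv
        have := h hv
        simpa using this
      · intro h v hv
        simpa using h hv
    by_cases hd : Disjoint e (SA ω)
    · rw [if_pos (h2.mpr hd), if_pos hd, mul_one]
    · rw [if_neg (fun h => hd (h2.mp h)), if_neg hd, mul_zero]
  rw [h1, Ex_sum]
  unfold ms
  simp only [Finset.subset_univ, Finset.filter_true]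
  rw [Finset.mul_sum]
  apply Finset.sum_congr rfl
  intro e he
  rw [Ex_cmul, hPR e, hQ e he]
  ring

/-- double counting -/
lemma sum_dg (x : V → ℝ) (𝒬 : Finset (Finset V)) (r : ℕ) (hQ : ∀ e ∈ 𝒬, e.card = r) :
    ∑ v, dg x 𝒬 v = (r : ℝ) * ms x 𝒬 univ := by
  unfold dg ms
  simp only [Finset.subset_univ, Finset.filter_true]
  simp_rw [Finset.sum_filter]
  rw [Finset.sum_comm, Finset.mul_sum]
  apply Finset.sum_congr rfl
  intro e he
  rw [← Finset.sum_filter]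
  simp [hQ e he]

lemma dg_nonneg (x : V → ℝ) (𝒬 : Finset (Finset V)) (hx : ∀ v, 0 ≤ x v) (v : V) :
    0 ≤ dg x 𝒬 v :=
  Finset.sum_nonneg (fun _ _ => Finset.prod_nonneg (fun v _ => hx v))

/-- the sets missing `A` do not miss a vertex of `A` -/
lemma ms_sub_le (x : V → ℝ) (𝒬 : Finset (Finset V)) (hx : ∀ v, 0 ≤ x v) (A : Finset V) :
    ms x 𝒬 univ - ms x 𝒬 (univ \ A) ≤ ∑ v ∈ A, dg x 𝒬 v := by
  unfold dg ms
  simp only [Finset.subset_univ, Finset.filter_true]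
  simp_rw [Finset.sum_filter]
  rw [Finset.sum_comm, ← Finset.sum_sub_distrib]
  apply Finset.sum_le_sum
  intro e _
  have hc : 0 ≤ ∏ v ∈ e, x v := Finset.prod_nonneg (fun v _ => hx v)
  have hs : ∀ v ∈ A, 0 ≤ (if v ∈ e then ∏ w ∈ e, x w else 0) := by
    intro v _
    split_ifs
    · exact hc
    · exact le_refl _
  by_cases h : e ⊆ univ \ A
  · rw [if_pos h, sub_self]
    exact Finset.sum_nonneg hs
  · rw [if_neg h, sub_zero]
    obtain ⟨v, hv, hv2⟩ := Finset.not_subset.mp h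
    have hvA : v ∈ A := by
      by_contra hcon
      exact hv2 (by simp [hcon])
    calc ∏ v ∈ e, x v = (if v ∈ e then ∏ w ∈ e, x w else 0) := by rw [if_pos hv]
      _ ≤ _ := Finset.single_le_sum hs hvA

/-- the statistic that controls the four linear quantities -/
noncomputable def Psi (x : V → ℝ) (α β N D : ℝ) (ω : V → Fin 3) : ℝ :=
  (D ^ 2)⁻¹ * ((∑ v ∈ SA ω, x v - α * ∑ v, x v) ^ 2 + (∑ v ∈ SB ω, x v - β * ∑ v, x v) ^ 2
    + N ^ 2 * (∑ v ∈ SA ω, (x v) ^ 2 - α * ∑ v, (x v) ^ 2) ^ 2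
    + N ^ 2 * (∑ v ∈ SB ω, (x v) ^ 2 - β * ∑ v, (x v) ^ 2) ^ 2)

lemma Psi_nonneg (x : V → ℝ) (α β N D : ℝ) (ω : V → Fin 3) : 0 ≤ Psi x α β N D ω := by
  unfold Psi
  positivity

lemma Psi_lt_one (x : V → ℝ) (α β N D : ℝ) (hN : 0 < N) (hD : 0 < D) (ω : V → Fin 3)
    (h : Psi x α β N D ω < 1) :
    |∑ v ∈ SA ω, x v - α * ∑ v, x v| ≤ D ∧ |∑ v ∈ SB ω, x v - β * ∑ v, x v| ≤ D ∧
    |∑ v ∈ SA ω, (x v) ^ 2 - α * ∑ v, (x v) ^ 2| ≤ D / N ∧
    |∑ v ∈ SB ω, (x v) ^ 2 - β * ∑ v, (x v) ^ 2| ≤ D / N := by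
  unfold Psi at h
  set a := ∑ v ∈ SA ω, x v - α * ∑ v, x v
  set b := ∑ v ∈ SB ω, x v - β * ∑ v, x v
  set c := ∑ v ∈ SA ω, (x v) ^ 2 - α * ∑ v, (x v) ^ 2
  set e := ∑ v ∈ SB ω, (x v) ^ 2 - β * ∑ v, (x v) ^ 2
  have hD2 : 0 < D ^ 2 := by positivity
  have h2 : a ^ 2 + b ^ 2 + N ^ 2 * c ^ 2 + N ^ 2 * e ^ 2 < D ^ 2 := by
    have := (inv_mul_lt_iff₀ hD2).mp h
    linarith
  have ha : 0 ≤ a ^ 2 := sq_nonneg a
  have hb : 0 ≤ b ^ 2 := sq_nonneg b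
  have hc : 0 ≤ N ^ 2 * c ^ 2 := by positivity
  have he : 0 ≤ N ^ 2 * e ^ 2 := by positivity
  refine ⟨abs_le_of_sq_le_sq (by linarith) hD.le, abs_le_of_sq_le_sq (by linarith) hD.le, ?_, ?_⟩
  · rw [le_div_iff₀ hN]
    have : |c * N| ≤ D := abs_le_of_sq_le_sq (by nlinarith) hD.le
    rwa [abs_mul, abs_of_pos hN] at this
  · rw [le_div_iff₀ hN]
    have : |e * N| ≤ D := abs_le_of_sq_le_sq (by nlinarith) hD.le
    rwa [abs_mul, abs_of_pos hN] at this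

end ExLemmas

end Pool.Agent.W922.PH
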