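import Pool.Agent.W922.PH.Sel1

set_option autoImplicit false

open Finset

namespace Pool.Agent.W922.PH

open Pool.Agent.W984.PH

section PsiBounds
variable {V : Type} [DecidableEq V] [Fintype V]

/-- sums of squares and fourth powers -/
lemma n2_bounds (x : V → ℝ) (C N : ℝ) (hN : 0 < N) (hC : 1 ≤ C) (hx : ∀ v, 0 ≤ x v)
    (hx1 : ∑ v, x v = 1) (hxC : ∀ v, x v ≤ C / N) :
    0 ≤ ∑ v, (x v) ^ 2 ∧ ∑ v, (x v) ^ 2 ≤ C / N ∧
    0 ≤ ∑ v, ((x v) ^ 2) ^ 2 ∧ ∑ v, ((x v) ^ 2) ^ 2 ≤ C ^ 3 / N ^ 3 := by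
  have h2 : ∑ v, (x v) ^ 2 ≤ C / N := by
    calc ∑ v, (x v) ^ 2 ≤ ∑ v, C / N * x v := by
          apply Finset.sum_le_sum
          intro v _
          rw [sq]
          exact mul_le_mul_of_nonneg_right (hxC v) (hx v)
      _ = C / N := by rw [← Finset.mul_sum, hx1, mul_one]
  refine ⟨Finset.sum_nonneg (fun v _ => sq_nonneg _), h2,
    Finset.sum_nonneg (fun v _ => sq_nonneg _), ?_⟩
  calc ∑ v, ((x v) ^ 2) ^ 2 ≤ ∑ v, (C / N) ^ 2 * (x v) ^ 2 := by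
        apply Finset.sum_le_sum
        intro v _
        rw [sq ((x v) ^ 2)]
        apply mul_le_mul_of_nonneg_right _ (sq_nonneg _)
        exact pow_le_pow_left₀ (hx v) (hxC v) 2
    _ = (C / N) ^ 2 * ∑ v, (x v) ^ 2 := by rw [← Finset.mul_sum]
    _ ≤ (C / N) ^ 2 * (C / N) := by
        apply mul_le_mul_of_nonneg_left h2
        positivity
    _ = C ^ 3 / N ^ 3 := by field_simp

lemma Ex_Psi_eq (x : V → ℝ) (α β N D : ℝ) :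
    Ex α β (Psi x α β N D) = (D ^ 2)⁻¹ *
      (Ex α β (fun ω => (∑ v ∈ SA ω, x v - α * ∑ v, x v) ^ 2)
        + Ex α β (fun ω => (∑ v ∈ SB ω, x v - β * ∑ v, x v) ^ 2)
        + N ^ 2 * Ex α β (fun ω => (∑ v ∈ SA ω, (x v) ^ 2 - α * ∑ v, (x v) ^ 2) ^ 2)
        + N ^ 2 * Ex α β (fun ω => (∑ v ∈ SB ω, (x v) ^ 2 - β * ∑ v, (x v) ^ 2) ^ 2)) := by
  unfold Psi
  rw [Ex_cmul, Ex_add, Ex_add, Ex_add, Ex_cmul, Ex_cmul]

lemma Ex_ind_Psi_eq (x : V → ℝ) (α β N D : ℝ) (w : V) :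
    Ex α β (fun ω => (if w ∈ SA ω then 1 else 0) * Psi x α β N D ω) = (D ^ 2)⁻¹ *
      (Ex α β (fun ω => (if w ∈ SA ω then 1 else 0) * (∑ v ∈ SA ω, x v - α * ∑ v, x v) ^ 2)
        + Ex α β (fun ω => (if w ∈ SA ω then 1 else 0) * (∑ v ∈ SB ω, x v - β * ∑ v, x v) ^ 2)
        + N ^ 2 * Ex α β (fun ω => (if w ∈ SA ω then 1 else 0)
            * (∑ v ∈ SA ω, (x v) ^ 2 - α * ∑ v, (x v) ^ 2) ^ 2)
        + N ^ 2 * Ex α β (fun ω => (if w ∈ SA ω then 1 else 0)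
            * (∑ v ∈ SB ω, (x v) ^ 2 - β * ∑ v, (x v) ^ 2) ^ 2)) := by
  rw [← Ex_cmul (N ^ 2), ← Ex_cmul (N ^ 2), ← Ex_add, ← Ex_add, ← Ex_add, ← Ex_cmul]
  congr 1
  funext ω
  unfold Psi
  ring

lemma Ex_Psi_le (hSM : S_SM) (x : V → ℝ) (α β σ s C N d : ℝ) (h0 : 0 ≤ α) (h1 : α ≤ β)
    (h2 : β ≤ 1) (hαβ : α + β = 2 * σ) (hσ : 0 < σ) (hN : 0 < N) (hs : 1 ≤ s)
    (hsσ : s = σ * N) (hd : 0 < d) (hC : 1 ≤ C) (hx : ∀ v, 0 ≤ x v)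
    (hx1 : ∑ v, x v = 1) (hxC : ∀ v, x v ≤ C / N) :
    Ex α β (Psi x α β N (d * σ)) ≤ 8 * C ^ 4 / (d ^ 2 * s) ∧
    ∀ w, Ex α β (fun ω => (if w ∈ SA ω then 1 else 0) * Psi x α β N (d * σ) ω)
      ≤ α * (8 * C ^ 4 / (d ^ 2 * s)) := by
  obtain ⟨hn0, hn2, hn40, hn4⟩ := n2_bounds x C N hN hC hx hx1 hxC
  have hNs : N = s / σ := by rw [hsσ]; field_simp
  have hC0 : 0 < C := by linarith
  have hs0 : 0 < s := by linarith
  obtain ⟨a1, a2, a3, a4⟩ := hSM V α β h0 h1 h2 x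
  obtain ⟨b1, b2, b3, b4⟩ := hSM V α β h0 h1 h2 (fun v => (x v) ^ 2)
  have hC4 : C ≤ C ^ 4 := le_self_pow₀ hC (by norm_num)
  have hC34 : C ^ 3 ≤ C ^ 4 := pow_le_pow_right₀ hC (by norm_num)
  have hC24 : C ^ 2 ≤ C ^ 4 := pow_le_pow_right₀ hC (by norm_num)
  have hD : 0 < (d * σ) ^ 2 := by positivity
  set n2 := ∑ v, (x v) ^ 2 with hn2def
  set n4 := ∑ v, ((x v) ^ 2) ^ 2 with hn4def
  -- N^2 * n4 ≤ C^3 / N
  have hNn4 : N ^ 2 * n4 ≤ C ^ 3 / N := by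
    calc N ^ 2 * n4 ≤ N ^ 2 * (C ^ 3 / N ^ 3) := mul_le_mul_of_nonneg_left hn4 (by positivity)
      _ = C ^ 3 / N := by field_simp
  have hCN : C / N = C * σ / s := by rw [hNs]; field_simp
  have hC3N : C ^ 3 / N = C ^ 3 * σ / s := by rw [hNs]; field_simp
  rw [hCN] at hn2
  rw [hC3N] at hNn4
  constructor
  · rw [Ex_Psi_eq]
    rw [inv_mul_le_iff₀ hD]
    have e1 : (d * σ) ^ 2 * (8 * C ^ 4 / (d ^ 2 * s)) = 8 * C ^ 4 * σ ^ 2 / s := by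
      field_simp
    rw [e1]
    have e2 : α * n2 + β * n2 + N ^ 2 * (α * n4) + N ^ 2 * (β * n4)
        = 2 * σ * n2 + 2 * σ * (N ^ 2 * n4) := by
      have : β = 2 * σ - α := by linarith
      rw [this]; ring
    have e3 : 2 * σ * n2 + 2 * σ * (N ^ 2 * n4)
        ≤ 2 * σ * (C * σ / s) + 2 * σ * (C ^ 3 * σ / s) := by
      have := mul_le_mul_of_nonneg_left hn2 (by positivity : (0:ℝ) ≤ 2 * σ)
      have := mul_le_mul_of_nonneg_left hNn4 (by positivity : (0:ℝ) ≤ 2 * σ)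
      linarith
    have e4 : 2 * σ * (C * σ / s) + 2 * σ * (C ^ 3 * σ / s)
        = (2 * C + 2 * C ^ 3) * σ ^ 2 / s := by ring
    have e5 : (2 * C + 2 * C ^ 3) * σ ^ 2 / s ≤ 8 * C ^ 4 * σ ^ 2 / s := by
      apply div_le_div_of_nonneg_right _ hs0.le
      apply mul_le_mul_of_nonneg_right _ (sq_nonneg _)
      linarith [pow_pos hC0 4]
    have m3 := mul_le_mul_of_nonneg_left b1 (by positivity : (0:ℝ) ≤ N ^ 2)
    have m4 := mul_le_mul_of_nonneg_left b2 (by positivity : (0:ℝ) ≤ N ^ 2)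
    linarith
  · intro w
    rw [Ex_ind_Psi_eq]
    rw [inv_mul_le_iff₀ hD]
    have e1 : (d * σ) ^ 2 * (α * (8 * C ^ 4 / (d ^ 2 * s))) = α * (8 * C ^ 4 * σ ^ 2 / s) := by
      field_simp
    rw [e1]
    have hxw : (x w) ^ 2 ≤ C ^ 2 * σ ^ 2 / s := by
      calc (x w) ^ 2 ≤ (C / N) ^ 2 := pow_le_pow_left₀ (hx w) (hxC w) 2
        _ = C ^ 2 * σ ^ 2 / s / s := by rw [hCN]; field_simp
        _ ≤ C ^ 2 * σ ^ 2 / s := div_le_self (by positivity) hs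
    have hxw4 : N ^ 2 * ((x w) ^ 2) ^ 2 ≤ C ^ 4 * σ ^ 2 / s := by
      calc N ^ 2 * ((x w) ^ 2) ^ 2 ≤ N ^ 2 * ((C / N) ^ 2) ^ 2 := by
            apply mul_le_mul_of_nonneg_left _ (by positivity)
            apply pow_le_pow_left₀ (sq_nonneg _)
            exact pow_le_pow_left₀ (hx w) (hxC w) 2
        _ = C ^ 4 * σ ^ 2 / s / s := by rw [hNs]; field_simp
        _ ≤ C ^ 4 * σ ^ 2 / s := div_le_self (by positivity) hs
    have a3' := a3 w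
    have a4' := a4 w
    have m3 := mul_le_mul_of_nonneg_left (b3 w) (by positivity : (0:ℝ) ≤ N ^ 2)
    have m4 := mul_le_mul_of_nonneg_left (b4 w) (by positivity : (0:ℝ) ≤ N ^ 2)
    have e2 : α * (α * n2 + (x w) ^ 2) + α * (β * n2 + (x w) ^ 2)
        + N ^ 2 * (α * (α * n4 + ((x w) ^ 2) ^ 2)) + N ^ 2 * (α * (β * n4 + ((x w) ^ 2) ^ 2))
        = α * (2 * σ * n2 + 2 * σ * (N ^ 2 * n4) + 2 * (x w) ^ 2
          + 2 * (N ^ 2 * ((x w) ^ 2) ^ 2)) := by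
      have : β = 2 * σ - α := by linarith
      rw [this]; ring
    have e3 : 2 * σ * n2 + 2 * σ * (N ^ 2 * n4) + 2 * (x w) ^ 2 + 2 * (N ^ 2 * ((x w) ^ 2) ^ 2)
        ≤ 8 * C ^ 4 * σ ^ 2 / s := by
      have f1 := mul_le_mul_of_nonneg_left hn2 (by positivity : (0:ℝ) ≤ 2 * σ)
      have f2 := mul_le_mul_of_nonneg_left hNn4 (by positivity : (0:ℝ) ≤ 2 * σ)
      have e4 : 2 * σ * (C * σ / s) + 2 * σ * (C ^ 3 * σ / s) + 2 * (C ^ 2 * σ ^ 2 / s)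
          + 2 * (C ^ 4 * σ ^ 2 / s)
          = (2 * C + 2 * C ^ 3 + 2 * C ^ 2 + 2 * C ^ 4) * σ ^ 2 / s := by ring
      have e5 : (2 * C + 2 * C ^ 3 + 2 * C ^ 2 + 2 * C ^ 4) * σ ^ 2 / s
          ≤ 8 * C ^ 4 * σ ^ 2 / s := by
        apply div_le_div_of_nonneg_right _ hs0.le
        apply mul_le_mul_of_nonneg_right _ (sq_nonneg _)
        linarith
      linarith
    have e6 := mul_le_mul_of_nonneg_left e3 h0
    linarith

end PsiBounds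

end Pool.Agent.W922.PH
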